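/-!
Cell checker for the triangulation of `(∂Δ³)³` (kernel computation; core Lean only).
-/
set_option autoImplicit false
noncomputable section
namespace Pool.Agent.helper73.TC.Ce

/-- entry number `i` (of width `w` bits) of the packed table `T` -/
@[reducible] def ent (T w i : Nat) : Nat := Nat.land (Nat.shiftRight T (Nat.mul w i)) (Nat.pred (Nat.pow 2 w))

/-- `a ⊆ b` for bitmasks -/
@[reducible] def msub (a b : Nat) : Bool := Nat.beq (Nat.land a b) a

/-- `f i` for all `i < n` -/
def allN (n : Nat) (f : Nat → Bool) : Bool :=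
  @Nat.rec (fun _ => Bool) true (fun c ih => @Bool.rec (fun _ => Bool) false ih (f c)) n

/-- `f 0 ∧ ... ∧ f 6` -/
def all7 (f : Nat → Bool) : Bool := allN 7 f

/-- global tables -/
structure Tab where
  /-- `12` bits per vertex: the nonzero coordinates of the point of the vertex -/
  PM : Nat
  /-- `24` bits per vertex: six coordinate indices (4 bits each); each carries weight 1/2 -/
  PI : Nat
  /-- group action: entry `124 g + v` (7 bits): `g v` -/
  GG : Nat
  /-- quotient map, 5 bits per vertex -/
  QT : Nat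
  /-- type of a vertex (2 bits): 0 trivial stabilizer, 1 stabilizer of order two, 2 fixed -/
  TY : Nat
  /-- a group element moving the vertex to the representative of its orbit (3 bits) -/
  GX : Nat
  /-- a second such group element, for the vertices of type 1 -/
  GY : Nat
  /-- entry `32 a + b` (7 bits): normal form of the `b`-vertex relative to the `a`-vertex -/
  FT : Nat
  /-- entry `400 a + 20 b + b'` (7 bits): normal form of the `b'`-vertex relative to the pair `a, b` -/
  F3 : Nat
  /-- the facets of the quotient complex, 30 bits each -/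
  LF : Nat

/-- data of one cell -/
structure Cell where
  /-- number of facets -/
  n : Nat
  /-- facets as bitmasks, 124 bits each -/
  FB : Nat
  /-- facets as lists of seven vertices, 7 bits each -/
  VX : Nat
  /-- coefficients of the supporting functions, 12 entries of 5 bits for each facet -/
  CO : Nat
  /-- heights, 8 bits per vertex -/
  HT : Nat
  /-- the vertices in the closed cell, bitmask -/
  VM : Nat
  /-- the vertices in the closed cell, list -/
  VL : List Nat
  /-- neighbours: for each facet seven entries of 8 bits; `< 12`: boundary coordinate, `16 + j`: facet `j` -/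
  NB : Nat
  /-- compatibility: for each facet nine entries of 8 bits -/
  CP : Nat
  /-- images under the two generators, two entries of 8 bits for each facet -/
  IV : Nat
  /-- index in the facet list of the quotient, 11 bits -/
  QI : Nat

variable (T : Tab) (C : Cell)

@[reducible] def fac (C : Cell) (i : Nat) : Nat := ent C.FB 124 i
@[reducible] def vtx (C : Cell) (i t : Nat) : Nat := ent C.VX 7 (Nat.add (Nat.mul 7 i) t)
@[reducible] def pm (T : Tab) (v : Nat) : Nat := ent T.PM 12 v
@[reducible] def idx (T : Tab) (v t : Nat) : Nat := ent T.PI 4 (Nat.add (Nat.mul 6 v) t)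
@[reducible] def act (T : Tab) (g v : Nat) : Nat := ent T.GG 7 (Nat.add (Nat.mul 124 g) v)
@[reducible] def qv (T : Tab) (v : Nat) : Nat := ent T.QT 5 v
@[reducible] def coef (C : Cell) (i k : Nat) : Nat := ent C.CO 5 (Nat.add (Nat.mul 12 i) k)

/-- value of twice the supporting function of facet `i` at vertex `v` -/
def val (T : Tab) (C : Cell) (i v : Nat) : Nat :=
  Nat.add (Nat.add (Nat.add (coef C i (idx T v 0)) (coef C i (idx T v 1)))
    (Nat.add (coef C i (idx T v 2)) (coef C i (idx T v 3))))
    (Nat.add (coef C i (idx T v 4)) (coef C i (idx T v 5)))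

/-- the coordinates vanishing on the cell number `16 a + 4 b + d` -/
def obits (c : Nat) : Nat :=
  Nat.add (Nat.add (Nat.pow 2 (Nat.div c 16)) (Nat.pow 2 (Nat.add 4 (Nat.land (Nat.div c 4) 3))))
    (Nat.pow 2 (Nat.add 8 (Nat.land c 3)))

/-- sum of the powers `2 ^ f t`, `t < 7` -/
def psum (f : Nat → Nat) : Nat :=
  Nat.add (Nat.add (Nat.add (Nat.pow 2 (f 0)) (Nat.pow 2 (f 1))) (Nat.add (Nat.pow 2 (f 2)) (Nat.pow 2 (f 3))))
    (Nat.add (Nat.add (Nat.pow 2 (f 4)) (Nat.pow 2 (f 5))) (Nat.pow 2 (f 6)))

/-- union of the powers `2 ^ f t`, `t < 7` -/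
def por (f : Nat → Nat) : Nat :=
  Nat.lor (Nat.lor (Nat.lor (Nat.pow 2 (f 0)) (Nat.pow 2 (f 1))) (Nat.lor (Nat.pow 2 (f 2)) (Nat.pow 2 (f 3))))
    (Nat.lor (Nat.lor (Nat.pow 2 (f 4)) (Nat.pow 2 (f 5))) (Nat.pow 2 (f 6)))

/-- the vertex list of the cell is right -/
def chkV (T : Tab) (C : Cell) (c : Nat) : Bool :=
  allN 124 fun v => @Bool.rec (fun _ => Bool) true
    (Bool.and (Nat.testBit C.VM v) (List.elem v C.VL))
    (Nat.beq (Nat.land (pm T v) (obits c)) 0)

/-- facet `i` has seven increasing vertices, all in the cell -/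
def chkF (T : Tab) (C : Cell) (c i : Nat) : Bool :=
  Bool.and (Nat.beq (fac C i) (psum (vtx C i)))
    (Bool.and (allN 6 fun t => Nat.blt (vtx C i t) (vtx C i (Nat.succ t)))
      (Bool.and (Nat.blt (vtx C i 6) 124)
        (all7 fun t => Nat.beq (Nat.land (pm T (vtx C i t)) (obits c)) 0)))

/-- the supporting function of facet `i` -/
def chkH (T : Tab) (C : Cell) (i : Nat) : Bool :=
  @List.rec Nat (fun _ => Bool) true
    (fun v _ ih => @Bool.rec (fun _ => Bool) false ih
      (@Bool.rec (fun _ => Bool) (Nat.blt (val T C i v) (ent C.HT 8 v)) (Nat.beq (val T C i v) (ent C.HT 8 v))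
        (Nat.testBit (fac C i) v))) C.VL

/-- ridges of facet `i` -/
def chkR (T : Tab) (C : Cell) (i : Nat) : Bool :=
  all7 fun t => @Bool.rec (fun _ => Bool)
    (Bool.and (Nat.blt (Nat.sub (ent C.NB 8 (Nat.add (Nat.mul 7 i) t)) 16) C.n)
      (Nat.beq (Nat.land (fac C (Nat.sub (ent C.NB 8 (Nat.add (Nat.mul 7 i) t)) 16)) (fac C i))
        (Nat.xor (fac C i) (Nat.pow 2 (vtx C i t)))))
    (all7 fun s => @Bool.rec (fun _ => Bool)
      (Bool.not (Nat.testBit (pm T (vtx C i s)) (ent C.NB 8 (Nat.add (Nat.mul 7 i) t))))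
      (Nat.testBit (pm T (vtx C i s)) (ent C.NB 8 (Nat.add (Nat.mul 7 i) t)))
      (Nat.beq s t))
    (Nat.blt (ent C.NB 8 (Nat.add (Nat.mul 7 i) t)) 12)

/-- compatibility of facet `i` with the `k`-th neighbouring cell `D` -/
def chkC (C D : Cell) (k i : Nat) : Bool :=
  Bool.and (Nat.blt (ent C.CP 8 (Nat.add (Nat.mul 9 i) k)) D.n)
    (msub (Nat.land (fac C i) D.VM) (fac D (ent C.CP 8 (Nat.add (Nat.mul 9 i) k))))

/-- invariance: the image of facet `i` under the group element `g` is a facet of the cell `D` -/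
def chkI (T : Tab) (C D : Cell) (k g i : Nat) : Bool :=
  Bool.and (Nat.blt (ent C.IV 8 (Nat.add (Nat.mul 2 i) k)) D.n)
    (Nat.beq (psum fun t => act T g (vtx C i t)) (fac D (ent C.IV 8 (Nat.add (Nat.mul 2 i) k))))

/-- quotient: the seven classes are distinct and the image is the given facet of the quotient -/
def chkQ (T : Tab) (C : Cell) (i : Nat) : Bool :=
  Bool.and (Nat.beq (psum fun t => qv T (vtx C i t)) (por fun t => qv T (vtx C i t)))
    (Bool.and (Nat.blt (ent C.QI 11 i) 1804)
      (Nat.beq (por fun t => qv T (vtx C i t)) (ent T.LF 30 (ent C.QI 11 i))))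

/-- vertex number `t` has trivial stabilizer: every vertex of the facet is in normal form -/
def chkN0 (T : Tab) (C : Cell) (i t : Nat) : Bool :=
  all7 fun s => Nat.beq (act T (ent T.GX 3 (vtx C i t)) (vtx C i s))
      (ent T.FT 7 (Nat.add (Nat.mul 32 (qv T (vtx C i t))) (qv T (vtx C i s))))

/-- the pair of the vertices number `t`, `s` has trivial stabilizer, and `g` normalizes it -/
def chkN1 (T : Tab) (C : Cell) (i t s g : Nat) : Bool :=
  Bool.and (Nat.beq (act T g (vtx C i s))
      (ent T.FT 7 (Nat.add (Nat.mul 32 (qv T (vtx C i t))) (qv T (vtx C i s)))))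
    (all7 fun r => @Bool.rec (fun _ => Bool) true
      (Nat.beq (act T g (vtx C i r))
        (ent T.F3 7 (Nat.add (Nat.mul 400 (qv T (vtx C i t)))
          (Nat.add (Nat.mul 20 (qv T (vtx C i s))) (qv T (vtx C i r))))))
      (Nat.ble 1 (ent T.TY 2 (vtx C i r))))

/-- goodness at facet `i` -/
def chkG (T : Tab) (C : Cell) (i : Nat) : Bool :=
  all7 fun t => @Bool.rec (fun _ => Bool)
    (@Bool.rec (fun _ => Bool) true
      (all7 fun s => @Bool.rec (fun _ => Bool) true
        (@Bool.rec (fun _ => Bool)
          (Bool.or (chkN1 T C i t s (ent T.GX 3 (vtx C i t))) (chkN1 T C i t s (ent T.GY 3 (vtx C i t))))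
          (Nat.beq (act T (ent T.GX 3 (vtx C i t)) (vtx C i s))
            (ent T.FT 7 (Nat.add (Nat.mul 32 (qv T (vtx C i t))) (qv T (vtx C i s)))))
          (Nat.beq (act T (ent T.GX 3 (vtx C i t)) (vtx C i s)) (act T (ent T.GY 3 (vtx C i t)) (vtx C i s))))
        (Nat.ble 1 (ent T.TY 2 (vtx C i s))))
      (Nat.beq (ent T.TY 2 (vtx C i t)) 1))
    (chkN0 T C i t)
    (Nat.beq (ent T.TY 2 (vtx C i t)) 0)

/-- all checks inside the cell number `c` -/
def chkCell (T : Tab) (C : Cell) (c : Nat) : Bool :=
  Bool.and (chkV T C c) (Bool.and (Nat.blt 0 C.n) (allN C.n fun i =>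
    Bool.and (chkF T C c i) (Bool.and (chkH T C i) (Bool.and (chkR T C i)
      (Bool.and (chkQ T C i) (chkG T C i))))))

/-- checks against the nine neighbouring cells (in the order of the list) and the two images -/
def chkNei (T : Tab) (C : Cell) (Ds : List Cell) (D1 D2 : Cell) (g1 g2 : Nat) : Bool :=
  Bool.and (Bool.and (allN C.n fun i => chkI T C D1 0 g1 i) (allN C.n fun i => chkI T C D2 1 g2 i))
    (@List.rec Cell (fun _ => Nat → Bool) (fun _ => true)
      (fun D _ ih k => @Bool.rec (fun _ => Bool) false (ih (Nat.succ k)) (allN C.n fun i => chkC C D k i)) Ds 0)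

/-- the permutation of the three factors belonging to the group element number `g` -/
def prm (g i : Nat) : Nat := ent 0x192261624 2 (Nat.add (Nat.mul 3 g) i)

/-- the tables of points, group action, quotient map and types are consistent -/
def chkTab (T : Tab) : Bool :=
  allN 124 fun v =>
    Bool.and
      (Bool.and (Nat.beq (pm T v) (Nat.lor (Nat.lor (Nat.lor (Nat.pow 2 (idx T v 0)) (Nat.pow 2 (idx T v 1)))
          (Nat.lor (Nat.pow 2 (idx T v 2)) (Nat.pow 2 (idx T v 3))))
          (Nat.lor (Nat.pow 2 (idx T v 4)) (Nat.pow 2 (idx T v 5)))))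
        (allN 6 fun t => Nat.beq (Nat.div (idx T v t) 4) (Nat.div t 2)))
      (Bool.and
        (allN 6 fun g => Bool.and (Nat.blt (act T g v) 124)
          (Bool.and (Nat.beq (qv T (act T g v)) (qv T v))
            (Bool.and (allN 3 fun i => allN 2 fun e =>
                Nat.beq (Nat.add (idx T (act T g v) (Nat.add (Nat.mul 2 i) e)) (Nat.mul 4 (prm g i)))
                  (Nat.add (idx T v (Nat.add (Nat.mul 2 (prm g i)) e)) (Nat.mul 4 i)))
              (allN 6 fun h => allN 6 fun k => @Bool.rec (fun _ => Bool) true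
                (Nat.beq (act T g (act T h v)) (act T k v))
                (allN 3 fun i => Nat.beq (prm h (prm g i)) (prm k i))))))
        (Bool.and (Nat.beq (act T 0 v) v)
          (Bool.and (Bool.and (Nat.blt (qv T v) 30) (Nat.ble (ent T.TY 2 v) 2))
            (allN 124 fun w => @Bool.rec (fun _ => Bool) true
              (Bool.and (Nat.beq (ent T.TY 2 v) (ent T.TY 2 w))
                (@Bool.rec (fun _ => Bool) true (Nat.beq v w) (Nat.beq (ent T.TY 2 v) 2)))
              (Nat.beq (qv T v) (qv T w))))))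

/-- `n`-th cell of a list -/
def getC (Ds : List Cell) (d : Cell) : Nat → Cell :=
  @List.rec Cell (fun _ => Nat → Cell) (fun _ => d)
    (fun D _ ih n => @Nat.rec (fun _ => Cell) D (fun m _ => ih m) n) Ds

/-- every facet of the quotient is the image of a facet; `K`: 14 bits per facet, `256 c + i` -/
def chkL (T : Tab) (Ds : List Cell) (d : Cell) (K : Nat) : Bool :=
  allN 1804 fun j =>
    Bool.and (Nat.blt (Nat.land (ent K 14 j) 255) (getC Ds d (Nat.shiftRight (ent K 14 j) 8)).n)
      (Nat.beq (ent (getC Ds d (Nat.shiftRight (ent K 14 j) 8)).QI 11 (Nat.land (ent K 14 j) 255)) j)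

end Pool.Agent.helper73.TC.Ce
end
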