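import Pool.Agent.helper73.TC.HDefs

/-!
# Complex projective 3-space, the sphere `∂Δ³` and complexes given by bitmasks (definitions)

Used for `MP_a50e43_gt` (tight polyhedral embedding of complex projective 3-space).
-/

set_option autoImplicit false
open Topology
open scoped LinearAlgebra.Projectivization

noncomputable section
namespace Pool.Agent.helper73.TC

/-- complex projective `n`-space -/
abbrev CP (n : ℕ) : Type := ℙ ℂ (Fin (n + 1) → ℂ)

/-- the quotient topology on complex projective space -/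
instance instTopCP (n : ℕ) : TopologicalSpace (CP n) :=
  inferInstanceAs (TopologicalSpace (Quotient (projectivizationSetoid ℂ (Fin (n + 1) → ℂ))))

/-- the boundary complex of the tetrahedron -/
def bd3 : Set (Finset (Fin 4)) := {s | s ≠ Finset.univ}

/-- the complex on `Fin n` generated by a list of bitmasks -/
def gen (n : ℕ) (L : List ℕ) : Set (Finset (Fin n)) :=
  {s | ∃ m ∈ L, ∀ i ∈ s, m.testBit i = true}

/-- the complex generated by finite families of facets -/
def CX {V I : Type} (T : I → Finset (Finset V)) : Set (Finset V) :=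
  {s | ∃ o, ∃ σ ∈ T o, s ⊆ σ}

/-- the conclusion of `cell_lemma` for a cell `o` -/
def CellBij {V : Type} [Fintype V] (P : V → Fin 3 → Fin 4 → ℝ) (o : Fin 3 → Fin 4)
    (T : Finset (Finset V)) : Prop :=
  ∀ z : Fin 3 → Fin 4 → ℝ, (∀ i j, 0 ≤ z i j) → (∀ i, ∑ j, z i j = 1) → (∀ i, z i (o i) = 0) →
      ∃! x : V → ℝ, (∀ v, 0 ≤ x v) ∧ ∑ v, x v = 1 ∧ (∃ σ ∈ T, ∀ v, x v ≠ 0 → v ∈ σ) ∧
        ∀ i j, ∑ v, x v * P v i j = z i j

end Pool.Agent.helper73.TC
end
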