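import Mathlib

/-!
# Concrete singular chains, parity classes and realizations of finite complexes (definitions)

Used for `MP_a50e43_gt` (tight polyhedral embedding of complex projective 3-space).
-/

set_option autoImplicit false
open CategoryTheory AlgebraicTopology Topology

noncomputable section
namespace Pool.Agent.helper73.TC

/-! ## Concrete singular chains -/

/-- singular `n`-simplices of `X` -/
abbrev Sing (X : Type) [TopologicalSpace X] (n : ℕ) : Type :=
  C(stdSimplex ℝ (Fin (n + 1)), X)

/-- the `i`-th face inclusion of standard simplices -/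
def faceMap (n : ℕ) (i : Fin (n + 2)) :
    C(stdSimplex ℝ (Fin (n + 1)), stdSimplex ℝ (Fin (n + 2))) :=
  ⟨stdSimplex.map i.succAbove, stdSimplex.continuous_map _⟩

/-- singular `n`-chains with coefficients in `F` -/
abbrev SC (F : Type) [Field F] (X : Type) [TopologicalSpace X] (n : ℕ) : Type := Sing X n →₀ F

section
variable (F : Type) [Field F] (X : Type) [TopologicalSpace X]

/-- the singular boundary -/
def bd (n : ℕ) : SC F X (n + 1) →ₗ[F] SC F X n :=
  ∑ i : Fin (n + 2), (-1 : F) ^ (i : ℕ) •
    Finsupp.lmapDomain F F (fun σ : Sing X (n + 1) => σ.comp (faceMap n i))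

/-- `n`-cycles (all chains for `n = 0`) -/
def cyc : (n : ℕ) → Submodule F (SC F X n)
  | 0 => ⊤
  | n + 1 => LinearMap.ker (bd F X n)

/-- `n`-boundaries -/
def bdy (n : ℕ) : Submodule F (SC F X n) := LinearMap.range (bd F X n)

/-- `H_n(X; F) = 0` -/
def HZ (n : ℕ) : Prop := cyc F X n ≤ bdy F X n

end

section
variable (F : Type) [Field F] {X Y : Type} [TopologicalSpace X] [TopologicalSpace Y]

/-- push-forward of singular chains -/
def push (f : C(X, Y)) (n : ℕ) : SC F X n →ₗ[F] SC F Y n :=
  Finsupp.lmapDomain F F (fun σ : Sing X n => f.comp σ)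

/-- `H_n(f; F)` is injective -/
def HI (f : C(X, Y)) (n : ℕ) : Prop :=
  ∀ z ∈ cyc F X n, push F f n z ∈ bdy F Y n → z ∈ bdy F X n

end

/-- `F`-homology in even degrees only -/
def Par0 (F : Type) [Field F] (X : Type) [TopologicalSpace X] : Prop :=
  ∀ n, Odd n → HZ F X n

/-- reduced `F`-homology in odd degrees only (the empty space included) -/
def Par1 (F : Type) [Field F] (X : Type) [TopologicalSpace X] : Prop :=
  (∀ n, Even n → 2 ≤ n → HZ F X n) ∧ (IsEmpty X ∨ PathConnectedSpace X)

/-- inclusion of a subspace -/
def inc {X : Type} [TopologicalSpace X] (U : Set X) : C(U, X) := ⟨Subtype.val, continuous_subtype_val⟩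

/-! ## Geometric realizations of finite abstract complexes -/

/-- a down-closed family of finite sets -/
def DownClosed {V : Type} (C : Set (Finset V)) : Prop := ∀ s ∈ C, ∀ t, t ⊆ s → t ∈ C

/-- the geometric realization: points of the standard simplex on `V` whose support is in `C` -/
def Real {V : Type} [Fintype V] (C : Set (Finset V)) : Type :=
  {w : stdSimplex ℝ V // (Finset.univ.filter fun v => 0 < (w : V → ℝ) v) ∈ C}

instance {V : Type} [Fintype V] (C : Set (Finset V)) : TopologicalSpace (Real C) :=
  inferInstanceAs (TopologicalSpace {w : stdSimplex ℝ V //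
    (Finset.univ.filter fun v => 0 < (w : V → ℝ) v) ∈ C})

/-- inclusion of realizations -/
def Real.incl {V : Type} [Fintype V] {C D : Set (Finset V)} (h : C ⊆ D) : C(Real C, Real D) :=
  ⟨fun w => ⟨w.1, h w.2⟩, by fun_prop⟩

/-- deletion of a vertex -/
def del {V : Type} (C : Set (Finset V)) (v : V) : Set (Finset V) := {s | s ∈ C ∧ v ∉ s}

/-- link of a vertex -/
def lk {V : Type} [DecidableEq V] (C : Set (Finset V)) (v : V) : Set (Finset V) :=
  {s | v ∉ s ∧ insert v s ∈ C}

end Pool.Agent.helper73.TC
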