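/-!
Checker for sequences of bistellar flips (kernel computation; core Lean only).
-/

set_option autoImplicit false
noncomputable section
namespace Pool.Agent.helper73.TC.Fl

/-- scan the facet list, continuation style -/
def scan (A B U : Nat) (L : List Nat) : List Nat → List Nat → (List Nat → List Nat → Bool) → Bool :=
  @List.rec Nat (fun _ => List Nat → List Nat → (List Nat → List Nat → Bool) → Bool)
    (fun st rs k => k st rs)
    (fun m _ ih st rs k =>
      @Bool.rec (fun _ => Bool)
        (@Bool.rec (fun _ => Bool) (ih st (m :: rs) k) false (Nat.beq (Nat.land B m) B))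
        (@Bool.rec (fun _ => Bool) false (ih (m :: st) rs k) (Nat.beq (Nat.land m U) m))
        (Nat.beq (Nat.land A m) A)) L

/-- all bits `c < n` of `A` satisfy `f` -/
def allBits (A : Nat) (f : Nat → Bool) (n : Nat) : Bool :=
  @Nat.rec (fun _ => Bool) true
    (fun c ih => @Bool.rec (fun _ => Bool) ih (@Bool.rec (fun _ => Bool) false ih (f c)) (Nat.testBit A c)) n

/-- prepend the masks `U - c` for the bits `c` of `A` -/
def addBits (A U : Nat) (n : Nat) : List Nat → (List Nat → Bool) → Bool :=
  @Nat.rec (fun _ => List Nat → (List Nat → Bool) → Bool) (fun l k => k l)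
    (fun c ih l k => @Bool.rec (fun _ => Bool) (ih l k) (ih (Nat.xor U (Nat.pow 2 c) :: l) k) (Nat.testBit A c)) n

/-- some element satisfies `f` -/
def anyL (f : Nat → Bool) (L : List Nat) : Bool :=
  @List.rec Nat (fun _ => Bool) false (fun m _ ih => @Bool.rec (fun _ => Bool) ih true (f m)) L

/-- all elements satisfy `f` -/
def allL (f : Nat → Bool) (L : List Nat) : Bool :=
  @List.rec Nat (fun _ => Bool) true (fun m _ ih => @Bool.rec (fun _ => Bool) false ih (f m)) L

/-- one flip, continuation style -/
def step (n A B : Nat) (L : List Nat) (k : List Nat → Bool) : Bool :=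
  scan A B (Nat.lor A B) L [] [] (fun st rs =>
    @Bool.rec (fun _ => Bool) false
      (addBits A (Nat.lor A B) n rs k)
      (Bool.and (Bool.and (Nat.beq (Nat.land A B) 0) (Bool.and (Nat.ble 1 A) (Bool.and (Nat.ble 1 B) (Nat.blt (Nat.lor A B) (Nat.pow 2 n)))))
        (Bool.and (allL (fun m => Bool.not (Nat.beq (Nat.land B m) B)) st)
          (allBits B (fun c => anyL (fun m => Nat.beq (Nat.land (Nat.xor (Nat.lor A B) (Nat.pow 2 c)) m)
            (Nat.xor (Nat.lor A B) (Nat.pow 2 c))) st) n))))

/-- run a list of flips -/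
def run (n : Nat) (ms : List (Nat × Nat)) : List Nat → (List Nat → Bool) → Bool :=
  @List.rec (Nat × Nat) (fun _ => List Nat → (List Nat → Bool) → Bool) (fun L k => k L)
    (fun m _ ih L k => step n m.1 m.2 L (fun L' => ih L' k)) ms

/-- equality of lists -/
def eqL (a : List Nat) : List Nat → Bool :=
  @List.rec Nat (fun _ => List Nat → Bool)
    (fun b => @List.rec Nat (fun _ => Bool) true (fun _ _ _ => false) b)
    (fun x _ ih b => @List.rec Nat (fun _ => Bool) false (fun y t _ => @Bool.rec (fun _ => Bool) false (ih t) (Nat.beq x y)) b) a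

end Pool.Agent.helper73.TC.Fl
end
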