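import Pool.Agent.helper73.TC.XDefs
import Pool.Agent.helper73.TC.Data.CeAll

/-!
# The triangulation of `(∂Δ³)³` and its quotient, from the tables (definitions)
-/

set_option autoImplicit false
noncomputable section
namespace Pool.Agent.helper73.TC
open Ce

/-- the number of the cell `o` -/
def cnum (o : Fin 3 → Fin 4) : ℕ := 16 * (o 0 : ℕ) + 4 * (o 1 : ℕ) + (o 2 : ℕ)
/-- the data of the cell `o` -/
def cellAt (o : Fin 3 → Fin 4) : Cell := getC cells cell0 (cnum o)
/-- the point of the vertex `v` -/
def PP (v : Fin 124) (i : Fin 3) (j : Fin 4) : ℝ :=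
  ((if idx tab v (2 * (i : ℕ)) = 4 * (i : ℕ) + (j : ℕ) then 1 else 0) +
    (if idx tab v (2 * (i : ℕ) + 1) = 4 * (i : ℕ) + (j : ℕ) then 1 else 0)) / 2
/-- a bitmask as a finite set of vertices -/
def fset (m : ℕ) : Finset (Fin 124) := Finset.univ.filter fun v => m.testBit v = true
/-- the facets of the cell `o` -/
def TT (o : Fin 3 → Fin 4) : Finset (Finset (Fin 124)) :=
  (Finset.range (cellAt o).n).image fun i => fset (fac (cellAt o) i)

/-- the permutation number (in the table of the group action) of a permutation -/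
def pnum (g : Equiv.Perm (Fin 3)) : ℕ :=
  if g 0 = 0 then (if g 1 = 1 then 0 else 1) else if g 0 = 1 then (if g 1 = 0 then 2 else 3)
  else (if g 1 = 0 then 4 else 5)
/-- the action on vertices -/
def rho (g : Equiv.Perm (Fin 3)) (v : Fin 124) : Fin 124 := Fin.ofNat 124 (act tab (pnum g) v)
/-- the quotient map on vertices -/
def qq (v : Fin 124) : Fin 30 := Fin.ofNat 30 (qv tab v)
/-- the facets of the quotient -/
def L1 : List ℕ := (List.range 1804).map (ent tab.LF 30)


end Pool.Agent.helper73.TC
end
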