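import Pool.Agent.helper73.TC.XDefs

/-!
# Tight polyhedral embeddings (definitions used in the statement for `MP_a50e43_gt`)
-/

set_option autoImplicit false
open Topology CategoryTheory AlgebraicTopology

noncomputable section
namespace Pool.Agent.helper73.TC

/-- a polyhedral embedding of `M` into `E^N`: a topological embedding `f` such that, for a finite
simplicial complex `C` and a homeomorphism `e : |C| → M` (a triangulation of `M`), the map `f ∘ e` is the
inclusion of `|C|` into `E^N`, which is affine on each simplex -/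
def PolyhedralEmbedding {M : Type} [TopologicalSpace M] {N : ℕ} (f : M → EuclideanSpace ℝ (Fin N)) : Prop :=
  IsEmbedding f ∧ ∃ (C : Geometry.SimplicialComplex ℝ (EuclideanSpace ℝ (Fin N))) (e : C.space ≃ₜ M),
    C.faces.Finite ∧ ∀ x : C.space, f (e x) = x

/-- the image is not contained in an affine hyperplane -/
def Substantial {M : Type} {N : ℕ} (f : M → EuclideanSpace ℝ (Fin N)) : Prop :=
  ¬ ∃ (ξ : EuclideanSpace ℝ (Fin N)) (c : ℝ), ξ ≠ 0 ∧ ∀ p, inner ℝ ξ (f p) = c

/-- the part of `X` inside the open half-space `c < ⟪ξ, x⟫` -/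
def halfPart {N : ℕ} (X : Set (EuclideanSpace ℝ (Fin N))) (ξ : EuclideanSpace ℝ (Fin N)) (c : ℝ) :
    Set (EuclideanSpace ℝ (Fin N)) := {x | x ∈ X ∧ c < inner ℝ ξ x}

/-- the inclusion of the part of `X` inside an open half-space into `X` -/
def halfIncl {N : ℕ} (X : Set (EuclideanSpace ℝ (Fin N))) (ξ : EuclideanSpace ℝ (Fin N)) (c : ℝ) :
    C(halfPart X ξ c, X) := ⟨fun x => ⟨x.1, x.2.1⟩, by fun_prop⟩

/-- the map of singular homology groups `H_n(·; F)` induced by the continuous map `g` is injective -/
def HInjective (F : Type) [Field F] {A B : Type} [TopologicalSpace A] [TopologicalSpace B]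
    (g : C(A, B)) (n : ℕ) : Prop :=
  Mono (((singularHomologyFunctor (ModuleCat.{0} F) n).obj (ModuleCat.of F F)).map (TopCat.ofHom g))

/-- tightness with respect to `F`: for each open half-space `h` the inclusion of `X ∩ h` into the image
`X` of `f` is injective in `F`-homology of each degree -/
def Tight (F : Type) [Field F] {M : Type} {N : ℕ} (f : M → EuclideanSpace ℝ (Fin N)) : Prop :=
  ∀ (ξ : EuclideanSpace ℝ (Fin N)) (c : ℝ) (n : ℕ), HInjective F (halfIncl (Set.range f) ξ c) n

end Pool.Agent.helper73.TC
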