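import Pool.Agent.helper73.TC.CP3
import Pool.Agent.helper73.TC.Stmt
import Pool.Agent.helper19.TC.Y2
import Pool.Agent.helper44.TC.Y3
import Pool.Agent.helper23.TC.Y5
import Pool.Agent.helper51.TC.Y6
import Pool.Agent.helper59.TC.Y7
import Pool.Agent.helper16.TC.Y8a
import Pool.Agent.helper79.TC.Y9
import Pool.Agent.helper11.TC.Y10a

/-!
# Complex projective 3-space has a tight polyhedral embedding into E^10

Used for `MP_a50e43_gt`.
-/

set_option autoImplicit false
open Topology CategoryTheory AlgebraicTopology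
noncomputable section
namespace Pool.Agent.helper73.TC

theorem fam0 (F : Type) [Field F] (i U : ℕ) (hi : i < 10) (hU : FamH i U) :
    Par1 F (Real (nfc 20 U (Pa.NV i))) := Y6.fam0' F NV_ok NE_ok lk_NV (good0 F) i hi U hU

theorem fam1 (F : Type) [Field F] (i U : ℕ) (hi : i < 10) (hU : FamH i U) :
    Par1 F (Real (nfc 20 (cmpl i U) (Pa.NV i))) := Y6.fam1' F NV_ok NE_ok lk_NV (good1 F) i hi _ U rfl hU

theorem fact0 (F : Type) [Field F] (v : Fin 20) (U : Finset (Fin 20)) (hU : AF U) (h1 : v ∉ U)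
    (h2 : anti v ∉ U) (h : Hidx v U) : Par1 F (Real (LK v U)) :=
  Y7.fact0' F (fun i U hi hU => fam0 F i U hi hU) v U hU h1 h2 h

theorem fact1 (F : Type) [Field F] (v : Fin 20) (U : Finset (Fin 20)) (hU : AF U) (h1 : v ∉ U)
    (h2 : anti v ∉ U) (h : Hidx v U) : Par1 F (Real (LK v (insert v U)ᶜ)) :=
  Y7.fact1' F (fun i U hi hU => fam1 F i U hi hU) v U hU h1 h2 h

theorem tight_K (F : Type) [Field F] (a : Fin 20 → ℝ) (ha : ∀ v, a (anti v) = - a v) (c : ℝ) (n : ℕ) :
    HI F (Real.incl (ind_subset K (fun x => c < a x))) n :=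
  Y8.tight_K' F (fun v U => fact0 F v U) (fun v U => fact1 F v U) a ha c n

theorem emb_mono (F : Type) [Field F] (ξ : EuclideanSpace ℝ (Fin 10)) (c : ℝ) (n : ℕ)
    (f : CP 3 → EuclideanSpace ℝ (Fin 10)) (hf : Set.range f = Set.range emb) :
    Mono (((singularHomologyFunctor (ModuleCat.{0} F) n).obj (ModuleCat.of F F)).map
      (TopCat.ofHom (⟨Set.inclusion (fun _ h => h.1), continuous_inclusion _⟩ :
        C({x : EuclideanSpace ℝ (Fin 10) | x ∈ Set.range f ∧ c < inner ℝ ξ x}, Set.range f)))) :=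
  Y10.emb_mono_of emb_embedding F (tight_K F) ξ c n f hf

theorem substantial_of_span {M : Type} {N : ℕ} (f : M → EuclideanSpace ℝ (Fin N))
    (h : affineSpan ℝ (Set.range f) = ⊤) : Substantial f := by
  rintro ⟨ξ, c, hξ, hc⟩
  have key : ∀ x : EuclideanSpace ℝ (Fin N), inner ℝ ξ x = c := by
    intro x
    have hx : x ∈ affineSpan ℝ (Set.range f) := by rw [h]; trivial
    refine affineSpan_induction (p := fun x => inner ℝ ξ x = c) hx ?_ ?_
    · rintro _ ⟨p, rfl⟩
      exact hc p
    · intro a u v w hu hv hw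
      simp only [vsub_eq_sub, vadd_eq_add, inner_add_right, inner_smul_right, inner_sub_right] at *
      rw [hu, hv, hw]
      simp
  have h0 : c = 0 := by
    rw [← key 0]
    simp
  have h1 := key ξ
  rw [h0] at h1
  exact hξ (inner_self_eq_zero.mp h1)

theorem main : ∃ f : CP 3 → EuclideanSpace ℝ (Fin 10), PolyhedralEmbedding f ∧ Substantial f ∧
      ∀ (F : Type) [Field F], Tight F f := by
  obtain ⟨h⟩ := cp3_homeo
  obtain ⟨C, hfin, hC⟩ := emb_complex
  have hr : Set.range (emb ∘ h) = Set.range emb := by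
    rw [Set.range_comp, h.surjective.range_eq, Set.image_univ]
  let E : Real K ≃ₜ Set.range emb := emb_embedding.toHomeomorph
  let e : C.space ≃ₜ CP 3 := (Homeomorph.setCongr hC).trans (E.symm.trans h.symm)
  refine ⟨emb ∘ h, ⟨emb_embedding.comp h.isEmbedding, C, e, hfin, ?_⟩, ?_, ?_⟩
  · intro x
    show emb (h (h.symm (E.symm (Homeomorph.setCongr hC x)))) = x
    rw [h.apply_symm_apply]
    have : (E (E.symm (Homeomorph.setCongr hC x))).1 = x := by rw [E.apply_symm_apply]; rfl
    exact this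
  · apply substantial_of_span
    rw [hr]
    exact emb_span
  · intro F _ ξ c n
    exact emb_mono F ξ c n (emb ∘ h) hr

end Pool.Agent.helper73.TC
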