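import Pool.Agent.helper17.TC.P1
import Pool.Agent.helper80.TC.P2
import Pool.Agent.helper41.TC.S
import Pool.Agent.helper28.TC.Q
import Pool.Agent.helper28.TC.G2
import Pool.Agent.helper7.TC.QuotMap
import Pool.Agent.helper74.TC.G4
import Pool.Agent.helper59.TC.G5
import Pool.Agent.helper59.TC.G6
import Pool.Agent.helper22.TC.G7
import Pool.Agent.helper62.TC.F3
import Pool.Agent.helper86.TC.R

/-!
# The complex on 20 vertices is a triangulation of complex projective 3-space

Used for `MP_a50e43_gt` (tight polyhedral embedding of complex projective 3-space).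
-/

set_option autoImplicit false
open Topology
open scoped LinearAlgebra.Projectivization
noncomputable section
namespace Pool.Agent.helper73.TC

open Ce

theorem geo_main : ∃ Q : C(Fin 3 → Real bd3, Real (gen 30 L1)), Function.Surjective Q ∧
    ∀ z z', Q z = Q z' ↔ ∃ g : Equiv.Perm (Fin 3), z' = z ∘ g := by
  obtain ⟨θ, hθ, hθP⟩ := glue PP PP_nonneg PP_sum TT TT_bij TT_cell TT_compat
  have hX : DownClosed (CX TT) := by
    rintro s ⟨o, σ, hσ, hs⟩ t ht
    exact ⟨o, σ, hσ, ht.trans hs⟩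
  exact quot_map PP (CX TT) hX θ hθ hθP rho rho_inj rho_PP TT_inv qq qq_rho qq_inj qq_good _ qq_image

theorem cp3_homeo_L1 : Nonempty (CP 3 ≃ₜ Real (gen 30 L1)) := by
  obtain ⟨Q, hQ, hQ'⟩ := geo_main
  obtain ⟨f, hf, hf'⟩ := sym3
  obtain ⟨e⟩ := cp1_homeo
  haveI := t2_CP 3
  haveI := t2_Real (gen 30 L1)
  haveI : CompactSpace (Real bd3) := compact_Real bd3 (by
    intro s hs t ht h
    exact hs (Finset.univ_subset_iff.mp (h ▸ ht)))
  let E : (Fin 3 → CP 1) ≃ₜ (Fin 3 → Real bd3) := Homeomorph.piCongrRight fun _ => e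
  refine homeo_of_fibers (f.comp ⟨E.symm, E.symm.continuous⟩) Q (hf.comp E.symm.surjective) hQ ?_
  intro z z'
  rw [hQ']
  show f (E.symm z) = f (E.symm z') ↔ _
  rw [hf']
  constructor
  · rintro ⟨g, hg⟩
    refine ⟨g, ?_⟩
    have := congrArg E hg
    rw [E.apply_symm_apply] at this
    rw [this]
    funext i
    show e (e.symm (z (g i))) = z (g i)
    simp
  · rintro ⟨g, rfl⟩
    exact ⟨g, rfl⟩

theorem cp3_homeo : Nonempty (CP 3 ≃ₜ Real (gen 20 Fl.K20)) := by
  obtain ⟨a⟩ := cp3_homeo_L1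
  obtain ⟨b⟩ := K_homeo
  exact ⟨a.trans b⟩

end Pool.Agent.helper73.TC
end
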