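/-!
Checker for parity certificates (kernel computation; core Lean only).
A complex is given by its vertex set `S` (bitmask) and a list `N` of nonfaces (bitmasks).
-/
set_option autoImplicit false
noncomputable section
namespace Pool.Agent.helper73.TC.Pa

/-- entry number `i` (5 bits) of the packed certificate `D` -/
@[reducible] def ent5 (D i : Nat) : Nat := Nat.land (Nat.shiftRight D (Nat.mul 5 i)) 31

/-- keep the masks inside `S` (continuation style) -/
def filt (S : Nat) (N : List Nat) : List Nat → (List Nat → Bool) → Bool :=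
  @List.rec Nat (fun _ => List Nat → (List Nat → Bool) → Bool) (fun acc k => k acc)
    (fun m _ ih acc k => @Bool.rec (fun _ => Bool) (ih acc k) (ih (m :: acc) k)
      (Nat.beq (Nat.land m S) m)) N

/-- union of the masks -/
def orL (N : List Nat) : Nat := @List.rec Nat (fun _ => Nat) 0 (fun m _ ih => Nat.lor m ih) N

/-- split the nonfaces at the vertex `q`: vertices killed in the link (`X`), new nonfaces of the
link (`P`), nonfaces not containing `q` (`R`) -/
def lnk (q : Nat) (N : List Nat) :
    Nat → List Nat → List Nat → (Nat → List Nat → List Nat → Bool) → Bool :=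
  @List.rec Nat (fun _ => Nat → List Nat → List Nat → (Nat → List Nat → List Nat → Bool) → Bool)
    (fun X P R k => k X P R)
    (fun m _ ih X P R k => @Bool.rec (fun _ => Bool)
      (ih X P (m :: R) k)
      (@Bool.rec (fun _ => Bool)
        (ih X (Nat.xor m (Nat.pow 2 q) :: P) R k)
        (@Bool.rec (fun _ => Bool)
          (ih (Nat.lor X (Nat.xor m (Nat.pow 2 q))) P R k)
          false
          (Nat.beq (Nat.xor m (Nat.pow 2 q)) 0))
        (Nat.beq (Nat.land (Nat.xor m (Nat.pow 2 q)) (Nat.pred (Nat.xor m (Nat.pow 2 q)))) 0))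
      (Nat.testBit m q)) N

/-- some mask of `P` is contained in `m` -/
def anySub (m : Nat) (P : List Nat) : Bool :=
  @List.rec Nat (fun _ => Bool) false
    (fun p _ ih => @Bool.rec (fun _ => Bool) ih true (Nat.beq (Nat.land p m) p)) P

/-- drop the masks meeting `X` and those containing a mask of `P` -/
def cleanR (X : Nat) (P : List Nat) (R : List Nat) : List Nat → (List Nat → Bool) → Bool :=
  @List.rec Nat (fun _ => List Nat → (List Nat → Bool) → Bool) (fun acc k => k acc)
    (fun m _ ih acc k => @Bool.rec (fun _ => Bool)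
      (ih acc k)
      (@Bool.rec (fun _ => Bool) (ih (m :: acc) k) (ih acc k) (anySub m P))
      (Nat.beq (Nat.land m X) 0)) R

/-- drop the masks meeting `X` -/
def cleanP (X : Nat) (P : List Nat) : List Nat → (List Nat → Bool) → Bool :=
  @List.rec Nat (fun _ => List Nat → (List Nat → Bool) → Bool) (fun acc k => k acc)
    (fun m _ ih acc k => @Bool.rec (fun _ => Bool) (ih acc k) (ih (m :: acc) k)
      (Nat.beq (Nat.land m X) 0)) P

/-- parity check; `b = true`: reduced homology in odd degrees, `b = false`: homology in even degrees -/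
def ck (D fuel : Nat) : Bool → Nat → List Nat → Nat → (Nat → Bool) → Bool :=
  @Nat.rec (fun _ => Bool → Nat → List Nat → Nat → (Nat → Bool) → Bool)
    (fun _ _ _ _ _ => false)
    (fun _ ih b S N pos k =>
      @Bool.rec (fun _ => Bool)
        (@Bool.rec (fun _ => Bool)
          (k pos)
          (@Bool.rec (fun _ => Bool)
            false
            (lnk (ent5 D pos) N 0 [] [] fun X P R => cleanP X P [] fun P' => cleanR X P R P' fun L =>
              @Bool.rec (fun _ => Bool)
                (ih (Bool.not b)
                  (Nat.xor (Nat.xor S (Nat.pow 2 (ent5 D pos))) (Nat.land (Nat.xor S (Nat.pow 2 (ent5 D pos))) X))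
                  L (Nat.succ pos) fun pos' => ih b (Nat.xor S (Nat.pow 2 (ent5 D pos))) R pos' k)
                false
                (Bool.and b (Nat.beq
                  (Nat.xor (Nat.xor S (Nat.pow 2 (ent5 D pos))) (Nat.land (Nat.xor S (Nat.pow 2 (ent5 D pos))) X)) 0)))
            (Nat.testBit S (ent5 D pos)))
          (Nat.beq (Nat.land S (orL N)) S))
        (k pos)
        (Nat.beq S 0)) fuel

/-- `n`-th list -/
def getL (T : List (List Nat)) : Nat → List Nat :=
  @List.rec (List Nat) (fun _ => Nat → List Nat) (fun _ => [])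
    (fun L _ ih n => @Nat.rec (fun _ => List Nat) L (fun m _ => ih m) n) T

/-- one member `S` of the family of the vertex `v`: either a direct certificate (code 31), or
a later vertex `c` whose link is certified -/
def leaf (mode : Bool) (v : Nat) (N1 : List Nat) (T : List (List Nat)) (D S pos : Nat)
    (k : Nat → Bool) : Bool :=
  @Bool.rec (fun _ => Bool)
    (@Bool.rec (fun _ => Bool)
      false
      (@Bool.rec (fun _ => Bool)
        (filt (Nat.xor S (Nat.land S (Nat.lor (Nat.pow 2 (ent5 D pos)) (Nat.pow 2 (Nat.xor (ent5 D pos) 1)))))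
          (getL T (ent5 D pos)) [] fun N =>
            ck D 64 false
              (Nat.xor S (Nat.land S (Nat.lor (Nat.pow 2 (ent5 D pos)) (Nat.pow 2 (Nat.xor (ent5 D pos) 1)))))
              N (Nat.succ pos) k)
        false
        (Nat.beq (Nat.xor S (Nat.land S (Nat.lor (Nat.pow 2 (ent5 D pos)) (Nat.pow 2 (Nat.xor (ent5 D pos) 1))))) 0))
      (Bool.and (Nat.ble (Nat.add v 2) (ent5 D pos)) (Bool.and (Nat.testBit S (ent5 D pos))
        (Bool.or (Bool.not mode) (Nat.testBit S (Nat.xor (ent5 D pos) 1))))))
    (filt S N1 [] fun N => ck D 64 true S N (Nat.succ pos) k)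
    (Nat.beq (ent5 D pos) 31)

/-- enumeration with three choices per pair -/
def fam (f : Nat → Nat → (Nat → Bool) → Bool) (js : List Nat) : Nat → Nat → (Nat → Bool) → Bool :=
  @List.rec Nat (fun _ => Nat → Nat → (Nat → Bool) → Bool) f
    (fun j _ ih S pos k => ih S pos fun p1 =>
      ih (Nat.xor S (Nat.pow 2 (Nat.mul 2 j))) p1 fun p2 =>
        ih (Nat.xor S (Nat.pow 2 (Nat.succ (Nat.mul 2 j)))) p2 k) js

/-- enumeration with two choices per pair -/
def fam2 (f : Nat → Nat → (Nat → Bool) → Bool) (js : List Nat) : Nat → Nat → (Nat → Bool) → Bool :=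
  @List.rec Nat (fun _ => Nat → Nat → (Nat → Bool) → Bool) f
    (fun j _ ih S pos k =>
      ih (Nat.xor S (Nat.pow 2 (Nat.mul 2 j))) pos fun p1 =>
        ih (Nat.xor S (Nat.pow 2 (Nat.succ (Nat.mul 2 j)))) p1 k) js

/-- check of a family: `S0` start set, two choices for the pairs `js2`, three for `js3` -/
def chk (mode : Bool) (v : Nat) (N1 : List Nat) (T : List (List Nat)) (D S0 : Nat)
    (js2 js3 : List Nat) (len : Nat) : Bool :=
  fam2 (fam (leaf mode v N1 T D) js3) js2 S0 0 fun pos => Nat.beq pos len

/-- some mask of `P` is contained in `m` -/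
@[reducible] def hasSub (P : List Nat) (m : Nat) : Bool := anySub m P

/-- all elements satisfy `f` -/
def allL (f : Nat → Bool) (L : List Nat) : Bool :=
  @List.rec Nat (fun _ => Bool) true (fun m _ ih => @Bool.rec (fun _ => Bool) false ih (f m)) L

/-- the nonfaces `L` describe the link of the vertex `c` in the complex with nonfaces `N`,
where the antipode `c xor 1` is removed -/
def chkE (N L : List Nat) (c : Nat) : Bool :=
  Bool.and (hasSub N (Nat.add (Nat.pow 2 c) (Nat.pow 2 (Nat.xor c 1))))
  (Bool.and
    (allL (fun m => @Bool.rec (fun _ => Bool)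
      (@Bool.rec (fun _ => Bool) (hasSub L m) true (Nat.testBit m (Nat.xor c 1)))
      (Bool.or (Nat.beq (Nat.xor m (Nat.pow 2 c)) (Nat.pow 2 (Nat.xor c 1))) (hasSub L (Nat.xor m (Nat.pow 2 c))))
      (Nat.testBit m c)) N)
    (allL (fun n => Bool.and
      (Bool.and (Bool.not (Nat.testBit n c)) (Bool.not (Nat.testBit n (Nat.xor c 1))))
      (Bool.and (Bool.and (Nat.blt n 1048576) (Nat.blt 0 (Nat.land n (Nat.pred n))))
        (hasSub N (Nat.add n (Nat.pow 2 c))))) L))

/-- keep the masks containing the vertex `x` -/
def keepV (x : Nat) (L : List Nat) : List Nat → (List Nat → Bool) → Bool :=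
  @List.rec Nat (fun _ => List Nat → (List Nat → Bool) → Bool) (fun acc k => k acc)
    (fun m _ ih acc k => @Bool.rec (fun _ => Bool) (ih acc k) (ih (m :: acc) k) (Nat.testBit m x)) L

/-- every set of vertices without a nonface of `N` is contained in a mask of `L`;
the sets are enumerated as `s ∪ {x_1 > x_2 > ...}`, `x_1 < n`; `L` lists the facets containing `s` -/
def chkGen (N : List Nat) (n : Nat) : Nat → List Nat → Bool :=
  @Nat.rec (fun _ => Nat → List Nat → Bool) (fun _ _ => true)
    (fun x ih s L => @Bool.rec (fun _ => Bool) false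
      (keepV x L [] fun L' => @List.rec Nat (fun _ => Bool) (hasSub N (Nat.add s (Nat.pow 2 x)))
        (fun _ _ _ => ih (Nat.add s (Nat.pow 2 x)) L') L')
      (ih s L)) n

/-- no mask of `N` is contained in a mask of `L` -/
def chkSep (N L : List Nat) : Bool := allL (fun m => Bool.not (hasSub N m)) L

/-- antipodal image of a mask -/
def anti (m : Nat) : Nat :=
  Nat.lor (Nat.land (Nat.shiftLeft m 1) 0xAAAAA) (Nat.land (Nat.shiftRight m 1) 0x55555)

/-- membership -/
def memL (m : Nat) (L : List Nat) : Bool :=
  @List.rec Nat (fun _ => Bool) false (fun p _ ih => @Bool.rec (fun _ => Bool) ih true (Nat.beq p m)) L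

end Pool.Agent.helper73.TC.Pa
end
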