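import Pool.Agent.helper73.TC.HDefs

/-!
# Barycentric subdivision operators (definitions)
-/

set_option autoImplicit false
open Topology

noncomputable section
namespace Pool.Agent.helper73.TC

/-- affine `m`-simplices in the standard `N`-simplex, given by their vertices -/
abbrev AS (N m : ℕ) : Type := Fin (m + 1) → stdSimplex ℝ (Fin (N + 1))

/-- affine chains -/
abbrev AC (F : Type) [Field F] (N m : ℕ) : Type := AS N m →₀ F

/-- the affine map `Δ^m → Δ^N` with the given vertices -/
def areal {N m : ℕ} (v : AS N m) : C(stdSimplex ℝ (Fin (m + 1)), stdSimplex ℝ (Fin (N + 1))) where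
  toFun t := ⟨fun j => ∑ i, (t : Fin (m + 1) → ℝ) i * (v i : Fin (N + 1) → ℝ) j,
    fun j => Finset.sum_nonneg fun i _ => mul_nonneg (t.2.1 i) ((v i).2.1 j), by
      rw [Finset.sum_comm]
      simp_rw [← Finset.mul_sum]
      rw [Finset.sum_congr rfl fun i _ => by rw [show ∑ j, (v i : Fin (N + 1) → ℝ) j = 1 from (v i).2.2,
        mul_one]]
      exact t.2.2⟩
  continuous_toFun := by
    refine Continuous.subtype_mk (continuous_pi fun j => ?_) _
    exact continuous_finsetSum _ fun i _ =>
      ((continuous_apply i).comp continuous_subtype_val).mul continuous_const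

/-- the barycenter of the standard simplex -/
def baryc (m : ℕ) : stdSimplex ℝ (Fin (m + 1)) :=
  ⟨fun _ => 1 / (m + 1), fun _ => by positivity, by simp; field_simp⟩

/-- the barycenter of an affine simplex -/
def abary {N m : ℕ} (v : AS N m) : stdSimplex ℝ (Fin (N + 1)) := areal v (baryc m)

/-- the vertices of the standard simplex -/
def vert (N : ℕ) : AS N N := fun i => ⟨Pi.single i 1, single_mem_stdSimplex ℝ i⟩

section
variable (F : Type) [Field F] (N : ℕ)

/-- boundary of affine chains -/
def abd (m : ℕ) : AC F N (m + 1) →ₗ[F] AC F N m :=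
  ∑ i : Fin (m + 2), (-1 : F) ^ (i : ℕ) •
    Finsupp.lmapDomain F F (fun v : AS N (m + 1) => (v ∘ i.succAbove : AS N m))

/-- the cone operator -/
def acone {m : ℕ} (b : stdSimplex ℝ (Fin (N + 1))) : AC F N m →ₗ[F] AC F N (m + 1) :=
  Finsupp.lmapDomain F F (fun v : AS N m => (Fin.cons b v : AS N (m + 1)))

/-- barycentric subdivision of affine chains -/
def aSd : (m : ℕ) → AC F N m →ₗ[F] AC F N m
  | 0 => LinearMap.id
  | m + 1 => Finsupp.lsum F fun v : AS N (m + 1) =>
      LinearMap.toSpanSingleton F _
        (acone F N (abary v) (aSd m (abd F N m (Finsupp.single v 1))))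

/-- the chain homotopy between the identity and subdivision -/
def aT : (m : ℕ) → AC F N m →ₗ[F] AC F N (m + 1)
  | 0 => 0
  | m + 1 => Finsupp.lsum F fun v : AS N (m + 1) =>
      LinearMap.toSpanSingleton F _
        (acone F N (abary v) (Finsupp.single v 1 - aT m (abd F N m (Finsupp.single v 1))))

end

section
variable (F : Type) [Field F] (X : Type) [TopologicalSpace X]

/-- an affine chain of `Δ^n` pushed into `X` by a singular simplex -/
def asing {X : Type} [TopologicalSpace X] {n : ℕ} (σ : Sing X n) (m : ℕ) :
    AC F n m →ₗ[F] SC F X m :=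
  Finsupp.lmapDomain F F (fun v : AS n m => σ.comp (areal v))

/-- barycentric subdivision of singular chains -/
def Sd (n : ℕ) : SC F X n →ₗ[F] SC F X n :=
  Finsupp.lsum F fun σ : Sing X n => LinearMap.toSpanSingleton F _
    (asing F σ n (aSd F n n (Finsupp.single (vert n) 1)))

/-- the chain homotopy for singular chains -/
def Th (n : ℕ) : SC F X n →ₗ[F] SC F X (n + 1) :=
  Finsupp.lsum F fun σ : Sing X n => LinearMap.toSpanSingleton F _
    (asing F σ (n + 1) (aT F n n (Finsupp.single (vert n) 1)))

end

end Pool.Agent.helper73.TC
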