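import Pool.Agent.helper73.TC.XDefs
import Pool.Agent.helper73.TC.Data.PaNK
import Pool.Agent.helper8.TC.HS
import Pool.Agent.helper45.TC.P

/-!
# Parity certificates for the complex on 20 vertices (definitions)

Used for `MP_a50e43_gt` (tight polyhedral embedding of complex projective 3-space).
-/

set_option autoImplicit false
open Topology

noncomputable section
namespace Pool.Agent.helper73.TC

/-- the faces inside the vertex set `S` (bitmask) which contain no nonface of the list `N` -/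
def nfc (n S : ℕ) (N : List ℕ) : Set (Finset (Fin n)) :=
  {s | (∀ i ∈ s, S.testBit i = true) ∧ ∀ m ∈ N, ¬ ∀ i : Fin n, m.testBit i = true → i ∈ s}

/-- a bitmask inside `2 ^ 20` with at least two bits -/
def MOK (m : ℕ) : Prop := m < 1048576 ∧ 0 < Nat.land m (Nat.pred m)

/-- `S` minus the antipodal pair of `c` -/
def rmp (S c : ℕ) : ℕ := Nat.xor S (Nat.land S (Nat.lor (Nat.pow 2 c) (Nat.pow 2 (Nat.xor c 1))))

/-- what a leaf of the certificate says about the member `S` of the family of the vertex `v` -/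
def Good (F : Type) [Field F] (mode : Bool) (v : ℕ) (N1 : List ℕ) (T : List (List ℕ)) (S : ℕ) : Prop :=
  Par1 F (Real (nfc 20 S N1)) ∨
  ∃ c, v + 2 ≤ c ∧ c < 20 ∧ S.testBit c = true ∧ (mode = true → S.testBit (Nat.xor c 1) = true) ∧
    rmp S c ≠ 0 ∧ Par0 F (Real (nfc 20 (rmp S c) (Pa.getL T c)))

/-- the sets enumerated by `Pa.chk`: `S` differs from `S0` in exactly one element of each pair in
`js2`, in at most one element of each pair in `js3`, and in nothing else -/
def En (js2 js3 : List ℕ) (S0 S : ℕ) : Prop :=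
  (∀ w, S.testBit w ≠ S0.testBit w → w / 2 ∈ js2 ∨ w / 2 ∈ js3) ∧
  (∀ j ∈ js2, (S.testBit (2 * j) ≠ S0.testBit (2 * j)) ↔
    (S.testBit (2 * j + 1) = S0.testBit (2 * j + 1))) ∧
  (∀ j ∈ js3, S.testBit (2 * j) = S0.testBit (2 * j) ∨ S.testBit (2 * j + 1) = S0.testBit (2 * j + 1))

/-- the family of the pair `i`: antipodal-free sets `U` (bitmasks) missing the pair `i`, either with all
elements in later pairs, or containing `0` and one element of each earlier pair -/
def FamH (i U : ℕ) : Prop :=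
  U < 1048576 ∧ (∀ j, ¬ (U.testBit (2 * j) = true ∧ U.testBit (2 * j + 1) = true)) ∧
  U.testBit (2 * i) = false ∧ U.testBit (2 * i + 1) = false ∧
  ((∀ w, U.testBit w = true → i < w / 2) ∨
    (U.testBit 0 = true ∧ ∀ j < i, U.testBit (2 * j) = true ∨ U.testBit (2 * j + 1) = true))

/-- the complement of `U` and the pair `i` -/
def cmpl (i U : ℕ) : ℕ := Nat.xor (Nat.xor 1048575 (3 * 4 ^ i)) U

/-- the antipode -/
def anti (v : Fin 20) : Fin 20 := ⟨2 * (v.1 / 2) + (1 - v.1 % 2), by omega⟩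

/-- antipodal-free -/
def AF (U : Finset (Fin 20)) : Prop := ∀ w ∈ U, anti w ∉ U

/-- the 6-dimensional complex on 20 vertices -/
abbrev K : Set (Finset (Fin 20)) := gen 20 Fl.K20

/-- the link of `v` inside `S` -/
def LK (v : Fin 20) (S : Finset (Fin 20)) : Set (Finset (Fin 20)) :=
  {s | v ∉ s ∧ s ⊆ S ∧ insert v s ∈ K}

/-- the index hypothesis for the vertex `v` and the set `U` -/
def Hidx (v : Fin 20) (U : Finset (Fin 20)) : Prop :=
  (∀ w ∈ U, v.1 / 2 < w.1 / 2) ∨
  ((∀ j < v.1 / 2, ∃ w ∈ U, w.1 / 2 = j) ∧ ∀ w ∈ U, w.1 / 2 = 0 → w.1 % 2 = v.1 % 2)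

/-- the induced subcomplex on `W` -/
def KW (W : Finset (Fin 20)) : Set (Finset (Fin 20)) := {s | s ∈ K ∧ s ⊆ W}

theorem KW_subset (W : Finset (Fin 20)) : KW W ⊆ K := fun _ h => h.1

/-! ### the geometric realization -/

/-- the vertex `v` is placed at `(-1)^v e_{v/2}` -/
def pt (v : Fin 20) : EuclideanSpace ℝ (Fin 10) :=
  (-1 : ℝ) ^ v.1 • EuclideanSpace.single (⟨v.1 / 2, by omega⟩ : Fin 10) (1 : ℝ)

/-- the map of the realization into Euclidean space which is affine on the simplices -/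
def emb (w : Real K) : EuclideanSpace ℝ (Fin 10) := ∑ v, (w.1 : Fin 20 → ℝ) v • pt v

end Pool.Agent.helper73.TC
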